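import Mathlib

/-!
# Just-in-time sequences with prescribed distances
-/

namespace Pool.Agent.R550.FE

/-- The positions (from left to right, beginning with `0`) of the letter `i` in the word `w`. -/
def positions (w : List ℕ) (i : ℕ) : List ℕ :=
  (List.range w.length).filter fun p => decide (w.getD p 0 = i)

/-- The distances of a letter with the positions `p_1 < … < p_d` in a cyclic word of length `D`:
`p_2 - p_1, …, p_d - p_{d-1}` and `p_1 + D - p_d`. -/
def cyclicDiffs (D : ℕ) (ps : List ℕ) : List ℕ :=
  List.zipWith (fun a b => b - a) ps (ps.tail ++ [ps.headD 0 + D])

/-- The distances of the letter `i` in the cyclic word `w`. -/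
def distances (w : List ℕ) (i : ℕ) : List ℕ := cyclicDiffs w.length (positions w i)

/-- The length `D = d_1 + … + d_n` of the words, where `d_i` is the length of the `i`-th vector. -/
def total (α : List (List ℕ)) : ℕ := (α.map List.length).sum

/-- `α` is an instance of FEAS: a nonempty list of vectors; each of them has at least one component
and is a non-increasing list of positive integers with sum `D`. -/
structure IsInstance (α : List (List ℕ)) : Prop where
  ne : α ≠ []
  vec : ∀ v ∈ α, v ≠ [] ∧ (∀ x ∈ v, 0 < x) ∧ v.Pairwise (· ≥ ·) ∧ v.sum = total α

/-- `w` is a just-in-time sequence for `(d_1, …, d_n)`: a word of length `D` over the letters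
`0, …, n - 1` in which the letter `i` occurs `d_i` times. -/
def IsJIT (α : List (List ℕ)) (w : List ℕ) : Prop :=
  w.length = total α ∧ (∀ x ∈ w, x < α.length) ∧
    ∀ i < α.length, w.count i = (α.getD i []).length

/-- The nodes `α` are feasible: in some just-in-time sequence the multiset of the distances of each
letter `i` is the multiset of the components of the `i`-th vector. -/
def Feasible (α : List (List ℕ)) : Prop :=
  ∃ w : List ℕ, IsJIT α w ∧ ∀ i < α.length, (distances w i).Perm (α.getD i [])

end Pool.Agent.R550.FE
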