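import Pool.Agent.R550.FE.Unpack
import Pool.Agent.H43R3.SN.SRC
import Pool.Agent.H243R3.SN.Poly
import Pool.Agent.NPC.Classes

/-!
# FEAS is NP-hard

The source is bin packing with bins of equal size and numbers of polynomial size
(`Pool.Agent.H43R3.SN.SRC.taskSRC`).
-/

namespace Pool.Agent.R550.FE

open Pool.Agent.NPC Pool.Agent.NPC.H632 Pool.Agent.H557R2.Tri
open Pool.Agent.H43R3.SN Pool.Agent.NPC.SNP

theorem feasible_iff {m S : ℕ} {a : List ℕ} (hm : 0 < m) (ha : ∀ x ∈ a, 0 < x)
    (hs : a.sum = m * S) : Feasible (pack m S a) ↔ BPk a m S := by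
  constructor
  · exact packing_of_feasible hm ha hs
  · rintro ⟨g, hg, h⟩
    refine feasible_of_packing hm ha hs hg ?_
    have h1 : ∑ j ∈ Finset.range m, ∑ i ∈ (Finset.range a.length).filter (fun i => g i = j),
        a.getD i 0 = ∑ i ∈ Finset.range a.length, a.getD i 0 :=
      Finset.sum_fiberwise_of_maps_to (fun i hi => Finset.mem_range.2
        (hg i (Finset.mem_range.1 hi))) _
    have h2 : ∑ i ∈ Finset.range a.length, a.getD i 0 = a.sum := by
      clear h1 h hg ha hs
      induction a with
      | nil => rfl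
      | cons x a ih =>
        rw [List.length_cons, Finset.sum_range_succ', List.sum_cons, ← ih]
        simp only [List.getD_cons_succ, List.getD_cons_zero]
        ring
    have h3 : ∑ j ∈ Finset.range m, ∑ i ∈ (Finset.range a.length).filter (fun i => g i = j),
        a.getD i 0 = ∑ _j ∈ Finset.range m, S := by
      rw [h1, h2, hs, Finset.sum_const, Finset.card_range, smul_eq_mul]
    have h4 := (Finset.sum_eq_sum_iff_of_le (s := Finset.range m)
      (fun j hj => h j (Finset.mem_range.1 hj))).1 h3
    intro j hj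
    exact h4 j (Finset.mem_range.2 hj)

theorem sizes_pos (I : List (ℕ × ℕ × ℕ) × ℕ) : ∀ x ∈ sizes I, 0 < x := by
  intro x hx
  unfold sizes at hx
  obtain ⟨e, _, rfl⟩ := List.mem_map.1 hx
  have h1 : 0 < MM I.1.length I.2 := by
    unfold MM
    omega
  have h2 : 0 < wt e.1 := by
    unfold wt
    split_ifs <;> norm_num
  have h3 := Nat.mul_pos h1 h2
  unfold Pool.Agent.H43R3.SN.sz
  omega

/-- The instance of FEAS belonging to an instance of exact cover. -/
def redF (I : List (ℕ × ℕ × ℕ) × ℕ) : List (List ℕ) :=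
  if tst I then pack (bb (clip I)) (BB (clip I)) (sizes (clip I)) else pack 2 1 [2]

theorem poly_replicate {α : Type} [TEnc α] {n x : α → ℕ} (hn : UPoly n) (hx : NPC.Poly x) :
    NPC.Poly (fun a => List.replicate (n a) (x a)) := by
  refine (NPC.Poly.map (F := fun a _ => x a) hn.range
    (hx.comp (NPC.Poly.fst NPC.Poly.id))).congr fun a => ?_
  rw [List.eq_replicate_iff]
  refine ⟨by simp, ?_⟩
  intro b hb
  obtain ⟨_, _, rfl⟩ := List.mem_map.1 hb
  rfl

theorem poly_pack {α : Type} [TEnc α] {m S : α → ℕ} {a : α → List ℕ} (hm : UPoly m)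
    (hS : UPoly S) (ha : NPC.Poly a) (h : ∀ x, ∀ y ∈ a x, y ≤ m x * (S x + 1)) :
    NPC.Poly (fun x => pack (m x) (S x) (a x)) := by
  have hS1 : UPoly (fun x => S x + 1) := UPoly.add hS (UPoly.const 1)
  have hD : UPoly (fun x => m x * (S x + 1)) := UPoly.mul hm hS1
  have hmap : NPC.Poly (fun x => (a x).map fun y => (m x * (S x + 1) - y + 1) ::
      List.replicate (min y (m x * (S x + 1)) - 1) 1) := by
    refine NPC.Poly.map (F := fun x y => (m x * (S x + 1) - y + 1) ::
      List.replicate (min y (m x * (S x + 1)) - 1) 1) ha ?_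
    have h1 : NPC.Poly (fun p : α × ℕ => m p.1 * (S p.1 + 1)) :=
      hD.toPoly.comp (NPC.Poly.fst NPC.Poly.id)
    have h2 : NPC.Poly (fun p : α × ℕ => p.2) := NPC.Poly.snd NPC.Poly.id
    have h3 : UPoly (fun p : α × ℕ => min p.2 (m p.1 * (S p.1 + 1)) - 1) :=
      UPoly.of_le (NPC.Poly.sub (NPC.Poly.min h2 h1) (NPC.Poly.const 1))
        (hD.comp (NPC.Poly.fst NPC.Poly.id)) (fun p => by
          have := Nat.min_le_right p.2 (m p.1 * (S p.1 + 1))
          omega)
    exact NPC.Poly.cons (NPC.Poly.add (NPC.Poly.sub h1 h2) (NPC.Poly.const 1))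
      (poly_replicate h3 (NPC.Poly.const 1))
  refine (NPC.Poly.cons (poly_replicate hm hS1.toPoly) hmap).congr fun x => ?_
  unfold pack
  congr 1
  refine List.map_congr_left fun y hy => ?_
  rw [min_eq_left (h x y hy)]
  rfl

theorem poly_redF : NPC.Poly redF := by
  unfold redF
  refine NPC.Poly.ite (p := tst) poly_tst ?_ (NPC.Poly.const _)
  exact poly_pack ubb uBB (poly_sizes.comp poly_clip) fun I y hy =>
    le_of_sum (clip_tst I).1 hy

theorem not_feasible : ¬ Feasible (pack 2 1 [2]) := by
  intro h
  obtain ⟨g, hg, h1⟩ := packing_of_feasible (m := 2) (S := 1) (a := [2]) (by norm_num)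
    (by simp) (by norm_num) h
  have h2 := h1 (g 0) (hg 0 (by simp))
  simp [Finset.sum_filter] at h2

/-- FEAS is NP-hard. -/
theorem hard : HardPr IsInstance Feasible := by
  refine hardPr_X3Cr.trans poly_redF (fun I hI => ?_) (fun I hI => ?_)
  · have hbd : bd I = I := by
      unfold bd
      rw [Nat.min_eq_left (q_le hI)]
    unfold redF
    split_ifs with h
    · have hc : clip I = I := by
        unfold clip
        rw [if_pos h, hbd]
      rw [hc]
      have hsum : (sizes I).sum = bb I * BB I := by
        unfold tst at h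
        rwa [hbd] at h
      refine pack_instance ?_ (sizes_pos I) hsum
      have h2 : 0 < I.1.length := List.length_pos_iff.2 hI.ne
      unfold bb
      omega
    · exact pack_instance (by norm_num) (by simp) (by norm_num)
  · have hbd : bd I = I := by
      unfold bd
      rw [Nat.min_eq_left (q_le hI)]
    rw [Pool.Agent.H43R3.SN.SRC.taskSRC I hI]
    unfold redF
    split_ifs with h
    · have hc : clip I = I := by
        unfold clip
        rw [if_pos h, hbd]
      rw [hc]
      have hsum : (sizes I).sum = bb I * BB I := by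
        unfold tst at h
        rwa [hbd] at h
      have h2 : 0 < I.1.length := List.length_pos_iff.2 hI.ne
      rw [feasible_iff (by unfold bb; omega) (sizes_pos I) hsum]
      exact ⟨fun h => h.2, fun h => ⟨hsum, h⟩⟩
    · constructor
      · rintro ⟨h1, _⟩
        exfalso
        apply h
        unfold tst
        rwa [hbd]
      · intro h1
        exact absurd h1 not_feasible

end Pool.Agent.R550.FE
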