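import Pool.Agent.R550.FE.Words

/-!
# Bin packing as a feasibility problem
-/

namespace Pool.Agent.R550.FE

open Finset

/-- The vector of an item of size `a`. -/
def itemVec (D a : ℕ) : List ℕ := (D - a + 1) :: List.replicate (a - 1) 1

/-- The instance of FEAS for `m` bins of size `S` and items of the sizes `a`. -/
def pack (m S : ℕ) (a : List ℕ) : List (List ℕ) :=
  List.replicate m (S + 1) :: a.map (itemVec (m * (S + 1)))

theorem itemVec_length {D a : ℕ} (ha : 0 < a) : (itemVec D a).length = a := by
  unfold itemVec
  rw [List.length_cons, List.length_replicate]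
  omega

theorem pack_length (m S : ℕ) (a : List ℕ) : (pack m S a).length = a.length + 1 := by
  unfold pack
  rw [List.length_cons, List.length_map]

theorem total_pack {m S : ℕ} {a : List ℕ} (ha : ∀ x ∈ a, 0 < x) (hs : a.sum = m * S) :
    total (pack m S a) = m * (S + 1) := by
  unfold total pack
  rw [List.map_cons, List.sum_cons, List.length_replicate, List.map_map]
  have : a.map (List.length ∘ itemVec (m * (S + 1))) = a := by
    conv_rhs => rw [← List.map_id a]
    refine List.map_congr_left fun x hx => ?_
    exact itemVec_length (ha x hx)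
  rw [this, hs]
  ring

theorem le_of_sum {m S : ℕ} {a : List ℕ} (hs : a.sum = m * S) {x : ℕ} (hx : x ∈ a) :
    x ≤ m * (S + 1) := by
  have := List.single_le_sum (l := a) (by simp) x hx
  rw [hs] at this
  exact this.trans (Nat.mul_le_mul_left m (by omega))

theorem pack_instance {m S : ℕ} {a : List ℕ} (hm : 0 < m) (ha : ∀ x ∈ a, 0 < x)
    (hs : a.sum = m * S) : IsInstance (pack m S a) := by
  refine ⟨by simp [pack], ?_⟩
  intro v hv
  rw [total_pack ha hs]
  unfold pack at hv
  rcases List.mem_cons.1 hv with rfl | hv
  · refine ⟨?_, ?_, ?_, ?_⟩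
    · intro h
      have := congrArg List.length h
      rw [List.length_replicate, List.length_nil] at this
      omega
    · intro x hx
      rw [List.eq_of_mem_replicate hx]
      omega
    · exact List.pairwise_replicate.2 (Or.inr le_rfl)
    · rw [List.sum_replicate]
      rfl
  · obtain ⟨x, hx, rfl⟩ := List.mem_map.1 hv
    have hx0 := ha x hx
    have hxD := le_of_sum hs hx
    refine ⟨by simp [itemVec], ?_, ?_, ?_⟩
    · intro y hy
      rcases List.mem_cons.1 hy with rfl | hy
      · omega
      · rw [List.eq_of_mem_replicate hy]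
        omega
    · refine List.pairwise_cons.2 ⟨?_, List.pairwise_replicate.2 (Or.inr le_rfl)⟩
      intro y hy
      rw [List.eq_of_mem_replicate hy]
      omega
    · unfold itemVec
      rw [List.sum_cons, List.sum_replicate]
      simp only [smul_eq_mul, mul_one]
      omega

/-! ### Packings give words -/

/-- The word with the blocks of letters `ord`. -/
def blk (a : List ℕ) (c : ℕ) : List ℕ :=
  List.replicate (if c = 0 then 1 else a.getD (c - 1) 0) c

/-- The order of the letters in the bin `j`. -/
def binOrd (n : ℕ) (g : ℕ → ℕ) (j : ℕ) : List ℕ :=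
  0 :: ((List.range n).filter fun i => decide (g i = j)).map (· + 1)

/-- The order of the letters. -/
def ord (n m : ℕ) (g : ℕ → ℕ) : List ℕ := (List.range m).flatMap (binOrd n g)

theorem mem_ord_succ {n m : ℕ} {g : ℕ → ℕ} {i : ℕ} :
    i + 1 ∈ ord n m g ↔ i < n ∧ g i < m := by
  unfold ord binOrd
  rw [List.mem_flatMap]
  constructor
  · rintro ⟨j, hj, h⟩
    rcases List.mem_cons.1 h with h | h
    · omega
    · obtain ⟨i', hi', h⟩ := List.mem_map.1 h
      rw [List.mem_filter, List.mem_range, decide_eq_true_eq] at hi'
      obtain rfl : i' = i := by omega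
      rw [List.mem_range] at hj
      omega
  · rintro ⟨h1, h2⟩
    refine ⟨g i, List.mem_range.2 h2, List.mem_cons_of_mem _ (List.mem_map.2 ⟨i, ?_, rfl⟩)⟩
    rw [List.mem_filter, List.mem_range, decide_eq_true_eq]
    exact ⟨h1, rfl⟩

theorem count_binOrd (n : ℕ) (g : ℕ → ℕ) (i j : ℕ) :
    (binOrd n g j).count (i + 1) = if i < n ∧ g i = j then 1 else 0 := by
  have hnd : (((List.range n).filter fun i => decide (g i = j)).map (· + 1)).Nodup := by
    refine List.Nodup.map (fun x y h => by simpa using h) (List.nodup_range.filter _)
  unfold binOrd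
  rw [List.count_cons_of_ne (by omega), hnd.count]
  congr 1
  rw [eq_iff_iff, List.mem_map]
  constructor
  · rintro ⟨i', hi', h⟩
    rw [List.mem_filter, List.mem_range, decide_eq_true_eq] at hi'
    obtain rfl : i' = i := by omega
    exact hi'
  · rintro ⟨h1, h2⟩
    refine ⟨i, ?_, rfl⟩
    rw [List.mem_filter, List.mem_range, decide_eq_true_eq]
    exact ⟨h1, h2⟩

theorem count_ord (n m : ℕ) (g : ℕ → ℕ) (i : ℕ) :
    (ord n m g).count (i + 1) = if i < n ∧ g i < m then 1 else 0 := by
  unfold ord
  induction m with
  | zero => simp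
  | succ m ih =>
    rw [List.range_succ, List.flatMap_append, List.count_append, ih, List.flatMap_singleton,
      count_binOrd]
    split_ifs <;> first | rfl | omega

theorem count_ord_zero (n m : ℕ) (g : ℕ → ℕ) : (ord n m g).count 0 = m := by
  unfold ord
  induction m with
  | zero => simp
  | succ m ih =>
    rw [List.range_succ, List.flatMap_append, List.count_append, ih, List.flatMap_singleton]
    unfold binOrd
    rw [List.count_cons_self, List.count_eq_zero_of_not_mem (by simp)]

theorem length_blk_sum (a l : List ℕ) :
    (l.flatMap (blk a)).length =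
      (l.map fun c => if c = 0 then 1 else a.getD (c - 1) 0).sum := by
  rw [List.length_flatMap]
  congr 1
  refine List.map_congr_left fun c _ => ?_
  unfold blk
  rw [List.length_replicate]

theorem sum_filter_range (n : ℕ) (p : ℕ → Bool) (f : ℕ → ℕ) :
    (((List.range n).filter p).map f).sum = ∑ i ∈ (range n).filter (fun i => p i = true), f i := by
  induction n with
  | zero => rfl
  | succ n ih =>
    rw [List.range_succ, List.filter_append, List.map_append, List.sum_append, ih,
      Finset.sum_filter, Finset.sum_filter, Finset.sum_range_succ]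
    by_cases h : p n = true
    · simp [h]
    · simp [h]

theorem length_bin (a : List ℕ) (g : ℕ → ℕ) (j : ℕ) :
    ((binOrd a.length g j).flatMap (blk a)).length =
      1 + ∑ i ∈ (range a.length).filter (fun i => g i = j), a.getD i 0 := by
  rw [length_blk_sum]
  unfold binOrd
  rw [List.map_cons, List.sum_cons, if_pos rfl, List.map_map]
  congr 1

/-- the positions of `0` -/
theorem positions_zero {a : List ℕ} {g : ℕ → ℕ} {S m : ℕ}
    (h : ∀ j < m, ∑ i ∈ (range a.length).filter (fun i => g i = j), a.getD i 0 = S) :
    positions ((ord a.length m g).flatMap (blk a)) 0 = (List.range m).map (fun j => j * (S + 1)) ∧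
      ((ord a.length m g).flatMap (blk a)).length = m * (S + 1) := by
  induction m with
  | zero => simp [ord, positions]
  | succ m ih =>
    obtain ⟨ih1, ih2⟩ := ih fun j hj => h j (by omega)
    have h1 : ord a.length (m + 1) g = ord a.length m g ++ binOrd a.length g m := by
      unfold ord
      rw [List.range_succ, List.flatMap_append, List.flatMap_singleton]
    have h2 : positions ((binOrd a.length g m).flatMap (blk a)) 0 = [0] := by
      unfold binOrd
      rw [List.flatMap_cons, positions_append, positions_of_notMem (w := List.flatMap _ _)]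
      · simp only [List.map_nil, List.append_nil]
        exact positions_replicate 1 0
      · intro h3
        obtain ⟨c, hc, h3⟩ := List.mem_flatMap.1 h3
        obtain ⟨i, _, rfl⟩ := List.mem_map.1 hc
        have := List.eq_of_mem_replicate h3
        omega
    rw [h1, List.flatMap_append, positions_append, h2, ih1, ih2, List.length_append, ih2,
      length_bin, h m (by omega), List.range_succ, List.map_append]
    refine ⟨rfl, ?_⟩
    ring

/-- the positions of an item -/
theorem positions_item {a l : List ℕ} {i : ℕ} (hc : l.count (i + 1) = 1) :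
    ∃ s, positions (l.flatMap (blk a)) (i + 1) =
      (List.range (a.getD i 0)).map fun p => s + p := by
  have hmem : i + 1 ∈ l := List.count_pos_iff.1 (by omega)
  obtain ⟨u, v, rfl, hu⟩ := List.eq_append_cons_of_mem hmem
  have hv : i + 1 ∉ v := by
    intro h
    rw [List.count_append, List.count_cons_self] at hc
    have := List.count_pos_iff.2 h
    omega
  have hnot : ∀ l' : List ℕ, i + 1 ∉ l' → i + 1 ∉ l'.flatMap (blk a) := by
    intro l' h h1
    obtain ⟨c, hc, h1⟩ := List.mem_flatMap.1 h1
    rw [← List.eq_of_mem_replicate h1] at hc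
    exact h hc
  refine ⟨(u.flatMap (blk a)).length, ?_⟩
  rw [List.flatMap_append, List.flatMap_cons, positions_append, positions_append,
    positions_of_notMem (hnot u hu), positions_of_notMem (hnot v hv)]
  have : blk a (i + 1) = List.replicate (a.getD i 0) (i + 1) := by
    unfold blk
    rw [if_neg (by omega), Nat.add_sub_cancel]
  rw [this, positions_replicate]
  simp

theorem feasible_of_packing {m S : ℕ} {a : List ℕ} (hm : 0 < m) (ha : ∀ x ∈ a, 0 < x)
    (hs : a.sum = m * S) {g : ℕ → ℕ} (hg : ∀ i < a.length, g i < m)
    (h : ∀ j < m, ∑ i ∈ (range a.length).filter (fun i => g i = j), a.getD i 0 = S) :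
    Feasible (pack m S a) := by
  obtain ⟨h0, hlen⟩ := positions_zero h
  have hget : ∀ i < a.length, 0 < a.getD i 0 ∧ a.getD i 0 ≤ m * (S + 1) := by
    intro i hi
    rw [List.getD_eq_getElem _ _ hi]
    exact ⟨ha _ (List.getElem_mem hi), le_of_sum hs (List.getElem_mem hi)⟩
  have hvec : ∀ i < a.length, (pack m S a).getD (i + 1) [] = itemVec (m * (S + 1)) (a.getD i 0) := by
    intro i hi
    unfold pack
    rw [List.getD_cons_succ, List.getD_eq_getElem _ _ (by rw [List.length_map]; exact hi),
      List.getElem_map, List.getD_eq_getElem _ _ hi]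
  have hvec0 : (pack m S a).getD 0 [] = List.replicate m (S + 1) := rfl
  have hpos : ∀ i < a.length, ∃ s, positions ((ord a.length m g).flatMap (blk a)) (i + 1) =
      (List.range (a.getD i 0)).map fun p => s + p := fun i hi =>
    positions_item (by rw [count_ord, if_pos ⟨hi, hg i hi⟩])
  refine ⟨(ord a.length m g).flatMap (blk a), ⟨?_, ?_, ?_⟩, ?_⟩
  · rw [total_pack ha hs, hlen]
  · intro x hx
    rw [pack_length]
    obtain ⟨c, hc, h1⟩ := List.mem_flatMap.1 hx
    rw [List.eq_of_mem_replicate h1]
    rcases Nat.eq_zero_or_pos c with hc0 | hc0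
    · omega
    · obtain ⟨i, rfl⟩ : ∃ i, c = i + 1 := ⟨c - 1, by omega⟩
      have := (mem_ord_succ.1 hc).1
      omega
  · intro i hi
    rw [pack_length] at hi
    rw [← positions_length]
    rcases Nat.eq_zero_or_pos i with rfl | hi0
    · rw [h0, hvec0, List.length_map, List.length_range, List.length_replicate]
    · obtain ⟨i, rfl⟩ : ∃ i', i = i' + 1 := ⟨i - 1, by omega⟩
      obtain ⟨s, hs'⟩ := hpos i (by omega)
      rw [hs', hvec i (by omega), List.length_map, List.length_range,
        itemVec_length (hget i (by omega)).1]
  · intro i hi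
    rw [pack_length] at hi
    unfold distances
    rw [hlen]
    rcases Nat.eq_zero_or_pos i with rfl | hi0
    · rw [h0, hvec0, diffs_ap m (S + 1) hm]
    · obtain ⟨i, rfl⟩ : ∃ i', i = i' + 1 := ⟨i - 1, by omega⟩
      obtain ⟨s, hs'⟩ := hpos i (by omega)
      have h2 := hget i (by omega)
      rw [hs', hvec i (by omega), diffs_block _ _ _ h2.1 h2.2]
      unfold itemVec
      exact List.perm_append_comm

end Pool.Agent.R550.FE
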