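import Pool.Agent.R550.FE.Pack

/-!
# Words give packings
-/

namespace Pool.Agent.R550.FE

open Finset

/-- The number of the hole of the position `p`. -/
def hole (m L c p : ℕ) : ℕ := if p < c then m - 1 else (p - c) / L

theorem hole_lt {m L c p : ℕ} (hm : 0 < m) (hp : p < m * L) : hole m L c p < m := by
  unfold hole
  split_ifs with h
  · omega
  · have hL : 0 < L := by
      rcases Nat.eq_zero_or_pos L with rfl | h
      · simp at hp
      · exact h
    rw [Nat.div_lt_iff_lt_mul hL]
    omega

theorem eq_of_mod {L b p p' : ℕ} (h1 : b ≤ p) (h2 : p < b + L) (h3 : b ≤ p') (h4 : p' < b + L)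
    (h : p % L = p' % L) : p = p' := by
  have e1 := Nat.div_add_mod p L
  have e2 := Nat.div_add_mod p' L
  rcases lt_trichotomy (p / L) (p' / L) with h5 | h5 | h5
  · have := Nat.mul_le_mul_left L (show p / L + 1 ≤ p' / L from h5)
    rw [Nat.mul_add, mul_one] at this
    omega
  · rw [h5] at e1
    omega
  · have := Nat.mul_le_mul_left L (show p' / L + 1 ≤ p / L from h5)
    rw [Nat.mul_add, mul_one] at this
    omega

theorem hole_mem {m L c p : ℕ} (hL : 0 < L) (hpc : c ≤ p) :
    c + L * hole m L c p ≤ p ∧ p < c + L * hole m L c p + L := by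
  unfold hole
  rw [if_neg (by omega)]
  have e1 := Nat.div_add_mod (p - c) L
  have e2 := Nat.mod_lt (p - c) hL
  omega

theorem hole_inj {m L c p p' : ℕ} (hL : 0 < L) (hm : 0 < m) (hc : c < L) (hp : p < m * L)
    (hp' : p' < m * L) (h : hole m L c p = hole m L c p') (hmod : p % L = p' % L) : p = p' := by
  have key : ∀ x y, x < m * L → y < m * L → x < c → c ≤ y → hole m L c x = hole m L c y →
      x % L = y % L → False := by
    intro x y hx hy h1 h2 h3 h4
    have e := hole_mem (m := m) hL h2
    rw [← h3] at e
    unfold hole at e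
    rw [if_pos h1] at e
    have e5 : L * (m - 1) + L = m * L := by
      obtain ⟨k, rfl⟩ : ∃ k, m = k + 1 := ⟨m - 1, by omega⟩
      rw [Nat.add_sub_cancel]
      ring
    have e6 : y = L * (m - 1) + (y - L * (m - 1)) := by omega
    have e7 : y % L = y - L * (m - 1) := by
      conv_lhs => rw [e6]
      rw [Nat.mul_add_mod, Nat.mod_eq_of_lt (by omega)]
    rw [Nat.mod_eq_of_lt (by omega), e7] at h4
    omega
  by_cases h1 : p < c
  · by_cases h2 : p' < c
    · rwa [Nat.mod_eq_of_lt (by omega), Nat.mod_eq_of_lt (by omega)] at hmod
    · exact (key p p' hp hp' h1 (by omega) h hmod).elim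
  · by_cases h2 : p' < c
    · exact (key p' p hp' hp h2 (by omega) h.symm hmod.symm).elim
    · have e1 := hole_mem (m := m) (c := c) (p := p) hL (by omega)
      have e2 := hole_mem (m := m) (c := c) (p := p') hL (by omega)
      rw [← h] at e2
      exact eq_of_mod e1.1 e1.2 e2.1 e2.2 hmod

theorem hole_succ {m L c p : ℕ} (hL : 0 < L) (hc : c < L)
    (h1 : (p + 1) % L ≠ c) : hole m L c (p + 1) = hole m L c p := by
  by_cases hpc : p + 1 < c
  · unfold hole
    rw [if_pos hpc, if_pos (by omega)]
  · have hpc2 : c ≤ p := by
      by_contra hcon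
      apply h1
      rw [Nat.mod_eq_of_lt (by omega)]
      omega
    have e1 := hole_mem (m := m) hL hpc2
    have e2 := hole_mem (m := m) (c := c) (p := p + 1) hL (by omega)
    rcases lt_trichotomy (hole m L c p) (hole m L c (p + 1)) with h5 | h5 | h5
    · exfalso
      have := Nat.mul_le_mul_left L (show hole m L c p + 1 ≤ hole m L c (p + 1) from h5)
      rw [Nat.mul_add, mul_one] at this
      apply h1
      have h6 : p + 1 = c + L * hole m L c (p + 1) := by omega
      rw [h6, Nat.add_mul_mod_self_left, Nat.mod_eq_of_lt hc]
    · exact h5.symm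
    · exfalso
      have := Nat.mul_le_mul_left L (show hole m L c (p + 1) + 1 ≤ hole m L c p from h5)
      rw [Nat.mul_add, mul_one] at this
      omega

theorem hole_last {m L c : ℕ} (hL : 0 < L) (hm : 0 < m) (hc : c < L) (h0 : c ≠ 0) :
    hole m L c (m * L - 1) = hole m L c 0 := by
  have e5 : L * (m - 1) + L = m * L := by
    obtain ⟨k, rfl⟩ : ∃ k, m = k + 1 := ⟨m - 1, by omega⟩
    rw [Nat.add_sub_cancel]
    ring
  unfold hole
  rw [if_pos (show 0 < c by omega), if_neg (by omega)]
  have h1 : m * L - 1 - c = L * (m - 1) + (L - 1 - c) := by omega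
  rw [h1, Nat.mul_add_div hL, Nat.div_eq_of_lt (by omega), Nat.add_zero]

/-- all distances but one are one -/
theorem perm_ones {l : List ℕ} {x n : ℕ} (h : l.Perm (x :: List.replicate n 1)) :
    ∃ k0 < l.length, ∀ k (hk : k < l.length), k ≠ k0 → l[k] = 1 := by
  have hx : x ∈ l := h.mem_iff.2 (by simp)
  obtain ⟨l1, l2, rfl⟩ := List.append_of_mem hx
  have h1 : (l1 ++ l2).Perm (List.replicate n 1) := by
    have h2 : (x :: (l1 ++ l2)).Perm (x :: List.replicate n 1) := List.perm_middle.symm.trans h
    exact h2.cons_inv
  have h2 := List.perm_replicate.1 h1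
  refine ⟨l1.length, by simp, ?_⟩
  intro k hk hne
  have hmem : ∀ y ∈ l1 ++ l2, y = 1 := by
    intro y hy
    rw [h2] at hy
    exact List.eq_of_mem_replicate hy
  by_cases hlt : k < l1.length
  · rw [List.getElem_append_left hlt]
    exact hmem _ (List.mem_append_left _ (List.getElem_mem _))
  · rw [List.getElem_append_right (by omega)]
    obtain ⟨j, hj⟩ : ∃ j, k - l1.length = j + 1 := ⟨k - l1.length - 1, by omega⟩
    simp only [hj, List.getElem_cons_succ]
    exact hmem _ (List.mem_append_right _ (List.getElem_mem _))

theorem card_positions (w : List ℕ) (i : ℕ) :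
    ((range w.length).filter fun p => w.getD p 0 = i).card = (positions w i).length := by
  have h : (range w.length).filter (fun p => w.getD p 0 = i) = (positions w i).toFinset := by
    ext p
    rw [mem_filter, mem_range, List.mem_toFinset, mem_positions]
  rw [h, List.toFinset_card_of_nodup]
  exact (positions_sorted w i).imp (fun h => ne_of_lt h)

theorem packing_of_feasible {m S : ℕ} {a : List ℕ} (hm : 0 < m) (ha : ∀ x ∈ a, 0 < x)
    (hs : a.sum = m * S) (h : Feasible (pack m S a)) :
    ∃ g : ℕ → ℕ, (∀ i < a.length, g i < m) ∧
      ∀ j < m, ∑ i ∈ (range a.length).filter (fun i => g i = j), a.getD i 0 ≤ S := by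
  obtain ⟨w, ⟨hlen, hlt, hcnt⟩, hperm⟩ := h
  rw [total_pack ha hs] at hlen
  rw [pack_length] at hcnt hperm
  have hvec : ∀ i < a.length, (pack m S a).getD (i + 1) [] = itemVec (m * (S + 1)) (a.getD i 0) := by
    intro i hi
    unfold pack
    rw [List.getD_cons_succ, List.getD_eq_getElem _ _ (by rw [List.length_map]; exact hi),
      List.getElem_map, List.getD_eq_getElem _ _ hi]
  have hvec0 : (pack m S a).getD 0 [] = List.replicate m (S + 1) := rfl
  have hget : ∀ i < a.length, 0 < a.getD i 0 := by
    intro i hi
    rw [List.getD_eq_getElem _ _ hi]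
    exact ha _ (List.getElem_mem hi)
  have hL : 0 < S + 1 := Nat.succ_pos S
  -- the positions of zero
  have hc0 : (positions w 0).length = m := by
    rw [positions_length, hcnt 0 (Nat.succ_pos _), hvec0, List.length_replicate]
  have hd0 : cyclicDiffs (m * (S + 1)) (positions w 0) = List.replicate m (S + 1) := by
    have h1 := hperm 0 (Nat.succ_pos _)
    rw [hvec0] at h1
    unfold distances at h1
    rw [hlen] at h1
    exact List.perm_replicate.1 h1
  obtain ⟨c, hc⟩ : ∃ c, c = (positions w 0)[0]'(by omega) := ⟨_, rfl⟩
  have hpos0 : ∀ k (hk : k < m), (positions w 0)[k]'(by omega) = c + (S + 1) * k := by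
    intro k
    induction k with
    | zero => intro hk; simp [hc]
    | succ k ih =>
      intro hk
      have h1 := ih (by omega)
      have h2 := diffs_get (D := m * (S + 1)) (ps := positions w 0) (k := k) (by omega)
      rw [dif_pos (by omega)] at h2
      have h3 : (cyclicDiffs (m * (S + 1)) (positions w 0))[k]'(by rw [diffs_length]; omega) =
          S + 1 := by
        simp only [hd0, List.getElem_replicate]
      rw [h3] at h2
      rw [Nat.mul_add, mul_one]
      omega
  have hcL : c < S + 1 := by
    have h1 := hpos0 (m - 1) (by omega)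
    have h2 : (positions w 0)[m - 1]'(by omega) < m * (S + 1) := by
      have := (mem_positions.1 (List.getElem_mem (l := positions w 0) (n := m - 1) (by omega))).1
      rwa [hlen] at this
    have e5 : (S + 1) * (m - 1) + (S + 1) = m * (S + 1) := by
      obtain ⟨k, rfl⟩ : ∃ k, m = k + 1 := ⟨m - 1, by omega⟩
      rw [Nat.add_sub_cancel]
      ring
    omega
  have hzero : ∀ p < m * (S + 1), (w.getD p 0 = 0 ↔ p % (S + 1) = c) := by
    intro p hp
    constructor
    · intro h1
      have h2 : p ∈ positions w 0 := mem_positions.2 ⟨by rw [hlen]; exact hp, h1⟩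
      obtain ⟨k, hk, h3⟩ := List.mem_iff_getElem.1 h2
      rw [← h3, hpos0 k (by omega), Nat.add_mul_mod_self_left, Nat.mod_eq_of_lt hcL]
    · intro h1
      have h2 : p / (S + 1) < m := by
        rw [Nat.div_lt_iff_lt_mul hL]
        exact hp
      have h3 := hpos0 _ h2
      have h4 := Nat.div_add_mod p (S + 1)
      have h5 : (positions w 0)[p / (S + 1)]'(by omega) = p := by omega
      have h6 : p ∈ positions w 0 := by
        rw [← h5]
        exact List.getElem_mem _
      exact (mem_positions.1 h6).2
  -- the positions of an item lie in one hole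
  have hitem : ∀ i < a.length, ∀ p < m * (S + 1), w.getD p 0 = i + 1 →
      hole m (S + 1) c p = hole m (S + 1) c ((positions w (i + 1)).headD 0) := by
    intro i hi p hp hwp
    have hql : (positions w (i + 1)).length = a.getD i 0 := by
      rw [positions_length, hcnt (i + 1) (by omega), hvec i hi, itemVec_length (hget i hi)]
    have hper := hperm (i + 1) (by omega)
    rw [hvec i hi] at hper
    unfold distances itemVec at hper
    rw [hlen] at hper
    obtain ⟨k0, hk0, hk1⟩ := perm_ones hper
    rw [diffs_length] at hk0
    obtain ⟨qs, hqs⟩ : ∃ qs, qs = positions w (i + 1) := ⟨_, rfl⟩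
    rw [← hqs] at hk0 hql
    have hmem : ∀ k (hk : k < qs.length), qs[k] < m * (S + 1) ∧ w.getD qs[k] 0 = i + 1 := by
      intro k hk
      have h1 : qs[k] ∈ positions w (i + 1) := by
        rw [← hqs]
        exact List.getElem_mem hk
      have := mem_positions.1 h1
      rwa [hlen] at this
    have hnz : ∀ k (hk : k < qs.length), qs[k] % (S + 1) ≠ c := by
      intro k hk h1
      have h2 := (hmem k hk)
      have h3 := (hzero _ h2.1).2 h1
      omega
    have hdiff : ∀ k (hk : k < qs.length), k ≠ k0 →
        (if h : k + 1 < qs.length then qs[k + 1] - qs[k] else qs[0] + m * (S + 1) - qs[k]) = 1 := by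
      intro k hk hne
      have h1 := hk1 k (by rw [diffs_length, ← hqs]; exact hk) hne
      subst hqs
      rw [diffs_get hk] at h1
      exact h1
    have hstep : ∀ k (hk : k + 1 < qs.length), k ≠ k0 →
        hole m (S + 1) c qs[k + 1] = hole m (S + 1) c qs[k] := by
      intro k hk hne
      have h1 := hdiff k (by omega) hne
      rw [dif_pos hk] at h1
      have h2 : qs[k + 1] = qs[k] + 1 := by omega
      have h3 := (hmem (k + 1) hk).1
      have h4 := hnz (k + 1) hk
      rw [h2] at h3 h4 ⊢
      exact hole_succ hL hcL h4
    have hwrap : ∀ (hpos : 0 < qs.length), qs.length - 1 ≠ k0 →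
        hole m (S + 1) c (qs[qs.length - 1]'(by omega)) = hole m (S + 1) c (qs[0]'hpos) := by
      intro hpos hne
      have h1 := hdiff (qs.length - 1) (by omega) hne
      rw [dif_neg (by omega)] at h1
      have h2 := (hmem (qs.length - 1) (by omega)).1
      have h3 : qs[0] = 0 := by omega
      have h4 : qs[qs.length - 1]'(by omega) = m * (S + 1) - 1 := by omega
      rw [h3, h4]
      apply hole_last hL hm hcL
      intro h5
      apply hnz 0 hpos
      rw [h3, h5]
      exact Nat.zero_mod _
    have hA : ∀ k (hk : k ≤ k0), hole m (S + 1) c (qs[k]'(by omega)) =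
        hole m (S + 1) c (qs[0]'(by omega)) := by
      intro k
      induction k with
      | zero => intro _; rfl
      | succ k ih =>
        intro hk
        rw [hstep k (by omega) (by omega)]
        exact ih (by omega)
    have hB : ∀ j, ∀ (hj : k0 < qs.length - 1 - j), hole m (S + 1) c (qs[qs.length - 1 - j]'(by omega)) =
        hole m (S + 1) c (qs[qs.length - 1]'(by omega)) := by
      intro j
      induction j with
      | zero => intro _; rfl
      | succ j ih =>
        intro hj
        rw [← ih (by omega)]
        have h1 := hstep (qs.length - 1 - (j + 1)) (by omega) (by omega)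
        have h2 : qs.length - 1 - (j + 1) + 1 = qs.length - 1 - j := by omega
        simp only [h2] at h1
        exact h1.symm
    have hall : ∀ k (hk : k < qs.length), hole m (S + 1) c qs[k] =
        hole m (S + 1) c (qs[0]'(by omega)) := by
      intro k hk
      by_cases h1 : k ≤ k0
      · exact hA k h1
      · have h2 := hB (qs.length - 1 - k) (by omega)
        have h3 : qs.length - 1 - (qs.length - 1 - k) = k := by omega
        simp only [h3] at h2
        rw [h2]
        exact hwrap (by omega) (by omega)
    have hp1 : p ∈ qs := by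
      rw [hqs]
      exact mem_positions.2 ⟨by rw [hlen]; exact hp, hwp⟩
    obtain ⟨k, hk, rfl⟩ := List.mem_iff_getElem.1 hp1
    rw [hall k hk, ← hqs]
    congr 1
    cases qs with
    | nil => simp at hk
    | cons x l => rfl
  -- the packing
  refine ⟨fun i => hole m (S + 1) c ((positions w (i + 1)).headD 0), ?_, ?_⟩
  · intro i hi
    apply hole_lt hm
    have h1 : (positions w (i + 1)).length = a.getD i 0 := by
      rw [positions_length, hcnt (i + 1) (by omega), hvec i hi, itemVec_length (hget i hi)]
    have h2 := hget i hi
    have h3 : (positions w (i + 1)).headD 0 ∈ positions w (i + 1) := by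
      cases hq : positions w (i + 1) with
      | nil => rw [hq] at h1; simp only [List.length_nil] at h1; omega
      | cons x l => simp
    have := (mem_positions.1 h3).1
    rwa [hlen] at this
  · intro j hj
    have hcard : ∀ i < a.length, a.getD i 0 =
        ((range w.length).filter fun p => w.getD p 0 = i + 1).card := by
      intro i hi
      rw [card_positions, positions_length, hcnt (i + 1) (by omega), hvec i hi,
        itemVec_length (hget i hi)]
    rw [Finset.sum_congr rfl (fun i hi => hcard i (mem_range.1 (mem_filter.1 hi).1)),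
      ← Finset.card_biUnion]
    · have h1 : ∀ x ∈ (range a.length).filter (fun i =>
          hole m (S + 1) c ((positions w (i + 1)).headD 0) = j) |>.biUnion
          (fun i => (range w.length).filter fun p => w.getD p 0 = i + 1),
          x < m * (S + 1) ∧ x % (S + 1) ≠ c ∧ hole m (S + 1) c x = j := by
        intro x hx
        rw [mem_biUnion] at hx
        obtain ⟨i, hi, hx⟩ := hx
        rw [mem_filter, mem_range] at hi hx
        rw [hlen] at hx
        refine ⟨hx.1, ?_, ?_⟩
        · intro h1
          have := (hzero x hx.1).2 h1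
          omega
        · rw [hitem i hi.1 x hx.1 hx.2]
          exact hi.2
      have h2 : ((range (S + 1)).erase c).card = S := by
        rw [card_erase_of_mem (mem_range.2 hcL), card_range, Nat.add_sub_cancel]
      refine le_trans (Finset.card_le_card_of_injOn (t := (range (S + 1)).erase c)
        (fun p => p % (S + 1)) ?_ ?_) h2.le
      · intro x hx
        have := h1 x hx
        simp only [coe_erase, coe_range, Set.mem_sdiff, Set.mem_Iio, Set.mem_singleton_iff]
        exact ⟨Nat.mod_lt _ hL, this.2.1⟩
      · intro x hx y hy hxy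
        have hx' := h1 x hx
        have hy' := h1 y hy
        exact hole_inj hL hm hcL hx'.1 hy'.1 (hx'.2.2.trans hy'.2.2.symm) hxy
    · intro i _ i' _ hne
      rw [Function.onFun, Finset.disjoint_left]
      intro x hx hx'
      rw [mem_filter] at hx hx'
      omega

end Pool.Agent.R550.FE
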