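import Pool.Agent.R550.FE.Defs

/-!
# Positions and distances in words
-/

namespace Pool.Agent.R550.FE

theorem mem_positions {w : List ℕ} {i p : ℕ} :
    p ∈ positions w i ↔ p < w.length ∧ w.getD p 0 = i := by
  unfold positions
  rw [List.mem_filter, List.mem_range, decide_eq_true_eq]

theorem positions_sorted (w : List ℕ) (i : ℕ) : (positions w i).Pairwise (· < ·) :=
  List.Pairwise.filter _ List.pairwise_lt_range

theorem positions_append (u v : List ℕ) (i : ℕ) :
    positions (u ++ v) i = positions u i ++ (positions v i).map fun p => u.length + p := by
  unfold positions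
  rw [List.length_append, List.range_add, List.filter_append, List.filter_map]
  congr 1
  · refine List.filter_congr fun p hp => ?_
    rw [List.mem_range] at hp
    rw [List.getD_append _ _ _ _ hp]
  · congr 1
    refine List.filter_congr fun p hp => ?_
    rw [Function.comp_apply, List.getD_append_right _ _ _ _ (by omega), Nat.add_sub_cancel_left]

theorem positions_of_notMem {w : List ℕ} {i : ℕ} (h : i ∉ w) : positions w i = [] := by
  unfold positions
  rw [List.filter_eq_nil_iff]
  intro p hp
  rw [List.mem_range] at hp
  rw [decide_eq_true_eq, List.getD_eq_getElem _ _ hp]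
  intro h1
  exact h (h1 ▸ List.getElem_mem hp)

theorem positions_replicate (a c : ℕ) : positions (List.replicate a c) c = List.range a := by
  unfold positions
  rw [List.length_replicate, List.filter_eq_self]
  intro p hp
  rw [List.mem_range] at hp
  rw [decide_eq_true_eq, List.getD_eq_getElem _ _ (by rw [List.length_replicate]; exact hp),
    List.getElem_replicate]

theorem positions_length (w : List ℕ) (i : ℕ) : (positions w i).length = w.count i := by
  induction w with
  | nil => rfl
  | cons x w ih =>
    have h := positions_append [x] w i
    rw [List.singleton_append] at h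
    rw [h, List.length_append, List.length_map, ih, List.count_cons]
    by_cases hx : x = i
    · subst hx
      have : positions [x] x = [0] := positions_replicate 1 x
      rw [this]
      simp [Nat.add_comm]
    · have : positions [x] i = [] := positions_of_notMem (by simpa using Ne.symm hx)
      rw [this]
      simp [hx]

theorem diffs_length (D : ℕ) (ps : List ℕ) : (cyclicDiffs D ps).length = ps.length := by
  unfold cyclicDiffs
  rw [List.length_zipWith, List.length_append, List.length_tail, List.length_singleton]
  omega

theorem diffs_get {D : ℕ} {ps : List ℕ} {k : ℕ} (hk : k < ps.length) :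
    (cyclicDiffs D ps)[k]'(by rw [diffs_length]; exact hk) =
      if h : k + 1 < ps.length then ps[k + 1] - ps[k] else ps[0] + D - ps[k] := by
  unfold cyclicDiffs
  rw [List.getElem_zipWith]
  by_cases h : k + 1 < ps.length
  · rw [dif_pos h, List.getElem_append_left (by rw [List.length_tail]; omega), List.getElem_tail]
  · rw [dif_neg h, List.getElem_append_right (by rw [List.length_tail]; omega)]
    have : ps.headD 0 = ps[0] := by
      cases ps with
      | nil => simp at hk
      | cons a l => rfl
    simp only [List.length_tail, List.getElem_singleton, this]

theorem zipWith_map_same {α β γ δ : Type} (l : List α) (u : α → β) (v : α → γ) (f : β → γ → δ) :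
    List.zipWith f (l.map u) (l.map v) = l.map fun x => f (u x) (v x) := by
  induction l with
  | nil => rfl
  | cons a l ih => simp [ih]

/-- the distances of an arithmetic progression -/
theorem diffs_ap (m L : ℕ) (hm : 0 < m) :
    cyclicDiffs (m * L) ((List.range m).map fun j => j * L) = List.replicate m L := by
  unfold cyclicDiffs
  have h1 : ((List.range m).map fun j => j * L).tail ++
      [((List.range m).map fun j => j * L).headD 0 + m * L] =
      (List.range m).map fun j => (j + 1) * L := by
    obtain ⟨k, rfl⟩ : ∃ k, m = k + 1 := ⟨m - 1, by omega⟩
    rw [List.range_succ_eq_map, List.map_cons, List.tail_cons, List.headD_cons, List.map_map]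
    have h2 : (List.range (k + 1)).map (fun j => (j + 1) * L) =
        (List.range k).map (fun j => (j + 1) * L) ++ [(k + 1) * L] := by
      rw [List.range_succ, List.map_append]
      rfl
    have h3 : (0 :: List.map Nat.succ (List.range k)).map (fun j => (j + 1) * L) =
        (List.range (k + 1)).map (fun j => (j + 1) * L) := by
      rw [List.range_succ_eq_map]
    rw [h3, h2]
    congr 1
    · simp
  rw [h1, zipWith_map_same, List.eq_replicate_iff]
  refine ⟨by simp, ?_⟩
  intro x hx
  obtain ⟨j, _, rfl⟩ := List.mem_map.1 hx
  rw [Nat.add_mul, one_mul, Nat.add_sub_cancel_left]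

/-- the distances of a block -/
theorem diffs_block (D s a : ℕ) (ha : 0 < a) (haD : a ≤ D) :
    cyclicDiffs D ((List.range a).map fun p => s + p) =
      List.replicate (a - 1) 1 ++ [D - a + 1] := by
  obtain ⟨k, rfl⟩ : ∃ k, a = k + 1 := ⟨a - 1, by omega⟩
  unfold cyclicDiffs
  have h1 : ((List.range (k + 1)).map fun p => s + p).tail =
      (List.range k).map fun p => s + (p + 1) := by
    rw [List.range_succ_eq_map, List.map_cons, List.tail_cons, List.map_map]
    rfl
  have h2 : ((List.range (k + 1)).map fun p => s + p).headD 0 = s := by
    rw [List.range_succ_eq_map]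
    rfl
  rw [h1, h2, List.range_succ, List.map_append, List.zipWith_append (by simp), zipWith_map_same]
  congr 1
  · rw [List.eq_replicate_iff]
    refine ⟨by simp, ?_⟩
    intro x hx
    obtain ⟨j, _, rfl⟩ := List.mem_map.1 hx
    omega
  · simp only [List.map_cons, List.map_nil, List.zipWith_cons_cons, List.zipWith_nil_left]
    congr 1
    omega

end Pool.Agent.R550.FE
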